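import Pool.Agent.MP_66cee2_co.X.Defs

/-
The local rank bound: a finite measure in a space of dimension `n` has many pairs of points that
are not at distance one.
-/

namespace Pool.Agent.MP_66cee2_co.H53

open MeasureTheory Set Finset Pool.Agent.MP_66cee2_co.X
open scoped MatrixOrder Matrix

theorem mat_rank {ι : Type} [Fintype ι] [DecidableEq ι] {M : Matrix ι ι ℝ} (hM : M.PosSemidef)
    (w : ι → ℝ) :
    (∑ a, w a * M a a) ^ 2 ≤ Fintype.card ι * ∑ a, ∑ b, w a * w b * (M a b * M a b) := by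
  obtain ⟨B, rfl⟩ := CStarAlgebra.nonneg_iff_eq_star_mul_self.mp hM.nonneg
  have e0 : ∀ a b, (star B * B) a b = ∑ k, B k a * B k b := fun a b => by
    simp [Matrix.mul_apply, Matrix.star_apply]
  simp only [e0]
  have e1 : ∑ a, w a * ∑ k, B k a * B k a = ∑ k, ∑ a, w a * (B k a * B k a) := by
    simp only [mul_sum]; exact sum_comm
  have e2 : ∑ a, ∑ b, w a * w b * ((∑ k, B k a * B k b) * ∑ k, B k a * B k b) =
      ∑ k, ∑ l, (∑ a, w a * (B k a * B l a)) ^ 2 := by
    calc ∑ a, ∑ b, w a * w b * ((∑ k, B k a * B k b) * ∑ k, B k a * B k b)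
        = ∑ a, ∑ b, ∑ k, ∑ l, w a * (B k a * B l a) * (w b * (B k b * B l b)) := by
          refine sum_congr rfl fun a _ => sum_congr rfl fun b _ => ?_
          rw [sum_mul_sum, mul_sum]
          refine sum_congr rfl fun k _ => ?_
          rw [mul_sum]
          exact sum_congr rfl fun l _ => by ring
      _ = ∑ a, ∑ k, ∑ b, ∑ l, w a * (B k a * B l a) * (w b * (B k b * B l b)) :=
          sum_congr rfl fun a _ => sum_comm
      _ = ∑ k, ∑ a, ∑ b, ∑ l, w a * (B k a * B l a) * (w b * (B k b * B l b)) := sum_comm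
      _ = ∑ k, ∑ a, ∑ l, ∑ b, w a * (B k a * B l a) * (w b * (B k b * B l b)) :=
          sum_congr rfl fun k _ => sum_congr rfl fun a _ => sum_comm
      _ = ∑ k, ∑ l, ∑ a, ∑ b, w a * (B k a * B l a) * (w b * (B k b * B l b)) :=
          sum_congr rfl fun k _ => sum_comm
      _ = _ := by
          refine sum_congr rfl fun k _ => sum_congr rfl fun l _ => ?_
          rw [sq, sum_mul_sum]
  rw [e1, e2]
  refine sq_sum_le_card_mul_sum_sq.trans ?_
  rw [card_univ]
  refine mul_le_mul_of_nonneg_left (sum_le_sum fun k _ => ?_) (Nat.cast_nonneg _)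
  exact single_le_sum (f := fun l => (∑ a, w a * (B k a * B l a)) ^ 2) (fun l _ => sq_nonneg _)
    (mem_univ k)

theorem ker_rank {ι X : Type} [Fintype ι] [DecidableEq ι] [MeasurableSpace X] (ν : Measure X)
    [IsFiniteMeasure ν] (f : ι → X → ℝ) (hf : ∀ a, Measurable (f a)) (C : ℝ)
    (hC : ∀ a x, |f a x| ≤ C) (w : ι → ℝ) :
    (∫ x, ∑ a, w a * (f a x * f a x) ∂ν) ^ 2 ≤
      Fintype.card ι * ∫ x, ∫ y, (∑ a, w a * (f a x * f a y)) ^ 2 ∂ν ∂ν := by
  have hi : ∀ a b, Integrable (fun x => f a x * f b x) ν := fun a b =>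
    Integrable.of_bound ((hf a).mul (hf b)).aestronglyMeasurable (C * C) (.of_forall fun x => by
      rw [Real.norm_eq_abs, abs_mul]
      exact mul_le_mul (hC a x) (hC b x) (abs_nonneg _) ((abs_nonneg _).trans (hC a x)))
  let M : Matrix ι ι ℝ := Matrix.of fun a b => ∫ x, f a x * f b x ∂ν
  have quad : ∀ v : ι → ℝ, ∫ y, (∑ a, v a * f a y) ^ 2 ∂ν = ∑ a, ∑ b, v a * v b * M a b := by
    intro v
    have e : ∀ y, (∑ a, v a * f a y) ^ 2 = ∑ a, ∑ b, v a * v b * (f a y * f b y) := fun y => by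
      rw [sq, sum_mul_sum]
      exact sum_congr rfl fun a _ => sum_congr rfl fun b _ => by ring
    simp only [e]
    rw [integral_finsetSum _ fun a _ => integrable_finsetSum _ fun b _ => (hi a b).const_mul _]
    refine sum_congr rfl fun a _ => ?_
    rw [integral_finsetSum _ fun b _ => (hi a b).const_mul _]
    exact sum_congr rfl fun b _ => integral_const_mul _ _
  have hM : M.PosSemidef := by
    refine Matrix.PosSemidef.of_dotProduct_mulVec_nonneg ?_ fun v => ?_
    · ext a b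
      simp only [Matrix.conjTranspose_apply, star_trivial, M, Matrix.of_apply]
      exact integral_congr_ae (.of_forall fun x => mul_comm _ _)
    · have h0 : 0 ≤ ∫ y, (∑ a, v a * f a y) ^ 2 ∂ν := integral_nonneg fun y => sq_nonneg _
      rw [quad] at h0
      refine h0.trans_eq ?_
      simp only [dotProduct, Matrix.mulVec, star_trivial, mul_sum]
      exact sum_congr rfl fun a _ => sum_congr rfl fun b _ => by ring
  have e1 : ∫ x, ∑ a, w a * (f a x * f a x) ∂ν = ∑ a, w a * M a a := by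
    rw [integral_finsetSum _ fun a _ => (hi a a).const_mul _]
    exact sum_congr rfl fun a _ => integral_const_mul _ _
  have e2 : ∀ x, ∫ y, (∑ a, w a * (f a x * f a y)) ^ 2 ∂ν =
      ∑ a, ∑ b, w a * w b * M a b * (f a x * f b x) := fun x => by
    have := quad fun a => w a * f a x
    simp only [mul_assoc] at this
    rw [this]
    exact sum_congr rfl fun a _ => sum_congr rfl fun b _ => by ring
  have e3 : ∫ x, ∑ a, ∑ b, w a * w b * M a b * (f a x * f b x) ∂ν =
      ∑ a, ∑ b, w a * w b * (M a b * M a b) := by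
    rw [integral_finsetSum _ fun a _ => integrable_finsetSum _ fun b _ => (hi a b).const_mul _]
    refine sum_congr rfl fun a _ => ?_
    rw [integral_finsetSum _ fun b _ => (hi a b).const_mul _]
    refine sum_congr rfl fun b _ => ?_
    rw [integral_const_mul, mul_assoc]
    rfl
  simp only [e2]
  rw [e1, e3]
  exact mat_rank hM w

theorem exp_gap {a b : ℝ} (hab : a ≤ b) (hb : b ≤ 6) :
    b - a ≤ Real.exp 6 * (Real.exp (-a) - Real.exp (-b)) := by
  have h1 : Real.exp (-a) = Real.exp (-b) * Real.exp (b - a) := by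
    rw [← Real.exp_add]; congr 1; ring
  have h2 := Real.add_one_le_exp (b - a)
  have h3 : 1 ≤ Real.exp 6 * Real.exp (-b) := by
    rw [← Real.exp_add]; exact Real.one_le_exp (by linarith)
  have h4 : Real.exp 6 * (Real.exp (-a) - Real.exp (-b)) =
      Real.exp 6 * Real.exp (-b) * (Real.exp (b - a) - 1) := by rw [h1]; ring
  rw [h4]
  nlinarith

theorem sq_le_psi {s : ℝ} (hs : s ≤ 6) :
    (1 - s) ^ 2 ≤ Real.exp 6 ^ 2 * (Real.exp (-s) - Real.exp (-1)) ^ 2 := by
  rw [← mul_pow]
  rcases le_total s 1 with h | h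
  · exact pow_le_pow_left₀ (by linarith) (exp_gap h (by norm_num)) 2
  · have := pow_le_pow_left₀ (by linarith) (exp_gap h hs) 2
    nlinarith

theorem psi_le_one {s : ℝ} (hs : 0 ≤ s) : (Real.exp (-s) - Real.exp (-1)) ^ 2 ≤ 1 := by
  have h1 : Real.exp (-s) ≤ 1 := Real.exp_le_one_iff.2 (by linarith)
  have h2 : Real.exp (-1) ≤ 1 := Real.exp_le_one_iff.2 (by norm_num)
  have h3 := Real.exp_pos (-s)
  have h4 := Real.exp_pos (-1)
  nlinarith

theorem locRank : ∃ c : ℝ, 0 < c ∧ ∀ (n : ℕ) (X : Type) [MeasurableSpace X] (ν : Measure X)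
    [IsFiniteMeasure ν] (b : X → E n), Measurable b →
    c * ν.real Set.univ ^ 2 / (n + 2) ≤
      ∫ x, ∫ y, (Real.exp (-‖b x - b y‖ ^ 2) - Real.exp (-1)) ^ 2 ∂ν ∂ν := by
  classical
  obtain ⟨κ, hκ⟩ : ∃ κ : ℝ, κ = (Real.exp (-1) - Real.exp (-(3 / 2))) ^ 2 := ⟨_, rfl⟩
  have hκ1 : 0 < Real.exp (-1) - Real.exp (-(3 / 2)) :=
    sub_pos.2 (Real.exp_lt_exp.2 (by norm_num))
  have hκ0 : 0 < κ := by rw [hκ]; positivity
  have hE : 0 < Real.exp 6 ^ 2 := by positivity
  refine ⟨min (κ / 2) (1 / (4 * Real.exp 6 ^ 2)), lt_min (by positivity) (by positivity), ?_⟩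
  intro n X _ ν _ b hb
  obtain ⟨ψ, hψ⟩ : ∃ ψ : X → X → ℝ,
      ψ = fun x y => (Real.exp (-‖b x - b y‖ ^ 2) - Real.exp (-1)) ^ 2 := ⟨_, rfl⟩
  have hψe : ∀ x y, ψ x y = (Real.exp (-‖b x - b y‖ ^ 2) - Real.exp (-1)) ^ 2 := fun x y => by
    rw [hψ]
  simp only [← hψe]
  have hψ0 : ∀ x y, 0 ≤ ψ x y := fun x y => by rw [hψe]; positivity
  have hψ1 : ∀ x y, ψ x y ≤ 1 := fun x y => by rw [hψe]; exact psi_le_one (by positivity)
  have hψm : Measurable (Function.uncurry ψ) := by
    rw [hψ]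
    have h1 : Measurable fun p : X × X => b p.1 - b p.2 :=
      (hb.comp measurable_fst).sub (hb.comp measurable_snd)
    exact (((h1.norm.pow_const 2).neg.exp).sub measurable_const).pow_const 2
  have hi1 : ∀ x, Integrable (ψ x) ν := fun x =>
    Integrable.of_bound (hψm.comp measurable_prodMk_left).aestronglyMeasurable 1
      (.of_forall fun y => by rw [Real.norm_eq_abs, abs_of_nonneg (hψ0 x y)]; exact hψ1 x y)
  have hi2 : Integrable (fun x => ∫ y, ψ x y ∂ν) ν :=
    Integrable.of_bound hψm.stronglyMeasurable.integral_prod_right.aestronglyMeasurable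
      (1 * ν.real Set.univ) (.of_forall fun x => norm_integral_le_of_norm_le_const
        (.of_forall fun y => by rw [Real.norm_eq_abs, abs_of_nonneg (hψ0 x y)]; exact hψ1 x y))
  obtain ⟨β, hβ⟩ : ∃ β : ℝ, β = ∫ x, ∫ y, ψ x y ∂ν ∂ν := ⟨_, rfl⟩
  obtain ⟨δ, hδ⟩ : ∃ δ : ℝ, δ = ν.real Set.univ := ⟨_, rfl⟩
  rw [← hβ, ← hδ]
  have hβ0 : 0 ≤ β := by rw [hβ]; exact integral_nonneg fun x => integral_nonneg (hψ0 x)
  have hn : (0 : ℝ) < n + 2 := by positivity
  have hn0 : (0 : ℝ) ≤ n := Nat.cast_nonneg n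
  rw [div_le_iff₀ hn]
  by_cases h1 : κ / 2 * δ ^ 2 ≤ β
  · have := mul_le_mul_of_nonneg_right (min_le_left (κ / 2) (1 / (4 * Real.exp 6 ^ 2)))
      (sq_nonneg δ)
    nlinarith
  rw [not_le] at h1
  have hδ0 : 0 < δ := by
    refine lt_of_le_of_ne (by rw [hδ]; exact measureReal_nonneg) fun h => ?_
    rw [← h] at h1
    nlinarith
  have hν : ν ≠ 0 := fun h => by rw [hδ, h] at hδ0; simp at hδ0
  obtain ⟨x₀, hx₀⟩ := exists_le_average hν hi2
  rw [average_eq, ← hβ, ← hδ, smul_eq_mul] at hx₀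
  let S : Set X := {x | ‖b x - b x₀‖ ^ 2 < 3 / 2}
  have hum : Measurable fun x => b x - b x₀ := hb.sub measurable_const
  have hS : MeasurableSet S := measurableSet_lt (hum.norm.pow_const 2) measurable_const
  have hSc : κ * ν.real Sᶜ ≤ ∫ y, ψ x₀ y ∂ν := by
    have h2 : ∫ y, Sᶜ.indicator (fun _ => κ) y ∂ν = κ * ν.real Sᶜ := by
      rw [integral_indicator_const _ hS.compl, smul_eq_mul, mul_comm]
    rw [← h2]
    refine integral_mono ((integrable_const κ).indicator hS.compl) (hi1 x₀) fun y => ?_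
    by_cases hy : y ∈ Sᶜ
    · rw [indicator_of_mem hy, hψe, hκ, norm_sub_rev]
      have h3 : 3 / 2 ≤ ‖b y - b x₀‖ ^ 2 := not_lt.1 hy
      have h4 : Real.exp (-‖b y - b x₀‖ ^ 2) ≤ Real.exp (-(3 / 2)) :=
        Real.exp_le_exp.2 (by linarith)
      nlinarith
    · rw [indicator_of_notMem hy]; exact hψ0 _ _
  have hSm : δ / 2 ≤ ν.real S := by
    have h2 : ν.real S + ν.real Sᶜ = δ := by rw [hδ]; exact measureReal_add_measureReal_compl hS
    have h3 : δ⁻¹ * β ≤ κ / 2 * δ := by
      rw [inv_mul_le_iff₀ hδ0]; nlinarith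
    have h4 : κ * ν.real Sᶜ ≤ κ * (δ / 2) := by linarith
    have h5 := le_of_mul_le_mul_left h4 hκ0
    linarith
  let g : Ix n → X → ℝ := fun a x => match a with
    | Sum.inl i => (b x - b x₀) i
    | Sum.inr true => 3 / 2 - ‖b x - b x₀‖ ^ 2
    | Sum.inr false => 1 / 2 + ‖b x - b x₀‖ ^ 2
  let w : Ix n → ℝ := fun a => match a with
    | Sum.inl _ => 2
    | Sum.inr true => 1 / 2
    | Sum.inr false => -1 / 2
  have hg : ∀ a, Measurable (g a) := by
    rintro (i | _ | _)
    · exact (by fun_prop : Continuous fun v : E n => v i).measurable.comp hum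
    · exact measurable_const.add (hum.norm.pow_const 2)
    · exact measurable_const.sub (hum.norm.pow_const 2)
  have hgw : ∀ x y, ∑ a, w a * (g a x * g a y) = 1 - ‖b x - b y‖ ^ 2 := fun x y => by
    have e : b x - b y = (b x - b x₀) - (b y - b x₀) := by abel
    rw [e, norm_sub_sq_real]
    simp only [Fintype.sum_sum_type, Fintype.sum_bool, w, g, PiLp.inner_apply,
      RCLike.inner_apply, conj_trivial, ← mul_sum]
    rw [sum_congr rfl fun i _ => mul_comm ((b y - b x₀) i) ((b x - b x₀) i)]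
    ring
  have hgC : ∀ a x, |S.indicator (g a) x| ≤ 2 := fun a x => by
    by_cases hx : x ∈ S
    · rw [indicator_of_mem hx]
      have h2 : ‖b x - b x₀‖ ^ 2 < 3 / 2 := hx
      have h3 : 0 ≤ ‖b x - b x₀‖ ^ 2 := sq_nonneg _
      rcases a with i | _ | _
      · have h4 : |(b x - b x₀) i| ≤ ‖b x - b x₀‖ := PiLp.norm_apply_le (b x - b x₀) i
        have h5 : ‖b x - b x₀‖ ≤ 2 := by nlinarith [norm_nonneg (b x - b x₀)]
        exact h4.trans h5
      · exact abs_le.2 ⟨by simp only [g]; linarith, by simp only [g]; linarith⟩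
      · exact abs_le.2 ⟨by simp only [g]; linarith, by simp only [g]; linarith⟩
    · rw [indicator_of_notMem hx]; norm_num
  have key := ker_rank ν (fun a => S.indicator (g a)) (fun a => (hg a).indicator hS) 2 hgC w
  have k1 : ∫ x, ∑ a, w a * (S.indicator (g a) x * S.indicator (g a) x) ∂ν = ν.real S := by
    rw [← integral_indicator_one hS]
    refine integral_congr_ae (.of_forall fun x => ?_)
    by_cases hx : x ∈ S
    · simp only [indicator_of_mem hx, hgw]; simp
    · simp [indicator_of_notMem hx]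
  have k2 : ∀ x y, (∑ a, w a * (S.indicator (g a) x * S.indicator (g a) y)) ^ 2 ≤
      Real.exp 6 ^ 2 * ψ x y := fun x y => by
    by_cases hx : x ∈ S
    · by_cases hy : y ∈ S
      · simp only [indicator_of_mem hx, indicator_of_mem hy, hgw]
        rw [hψe]
        refine sq_le_psi ?_
        have h2 : ‖b x - b x₀‖ ^ 2 < 3 / 2 := hx
        have h3 : ‖b y - b x₀‖ ^ 2 < 3 / 2 := hy
        have h4 := norm_sub_le_norm_sub_add_norm_sub (b x) (b x₀) (b y)
        rw [norm_sub_rev (b x₀)] at h4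
        have h5 := pow_le_pow_left₀ (norm_nonneg _) h4 2
        nlinarith [sq_nonneg (‖b x - b x₀‖ - ‖b y - b x₀‖)]
      · simp only [indicator_of_notMem hy, mul_zero, sum_const_zero]
        have := mul_nonneg hE.le (hψ0 x y)
        simpa using this
    · simp only [indicator_of_notMem hx, zero_mul, mul_zero, sum_const_zero]
      have := mul_nonneg hE.le (hψ0 x y)
      simpa using this
  have k3 : ∫ x, ∫ y, (∑ a, w a * (S.indicator (g a) x * S.indicator (g a) y)) ^ 2 ∂ν ∂ν ≤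
      Real.exp 6 ^ 2 * β := by
    rw [hβ, ← integral_const_mul]
    refine integral_mono_of_nonneg (.of_forall fun x => integral_nonneg fun y => sq_nonneg _)
      (hi2.const_mul _) (.of_forall fun x => ?_)
    simp only
    rw [← integral_const_mul]
    exact integral_mono_of_nonneg (.of_forall fun y => sq_nonneg _) ((hi1 x).const_mul _)
      (.of_forall fun y => k2 x y)
  have k4 : (Fintype.card (Ix n) : ℝ) = n + 2 := by simp
  rw [k1, k4] at key
  have k5 := key.trans (mul_le_mul_of_nonneg_left k3 hn.le)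
  have k6 : (δ / 2) ^ 2 ≤ ν.real S ^ 2 := pow_le_pow_left₀ (by positivity) hSm 2
  have k7 := mul_le_mul_of_nonneg_right (min_le_right (κ / 2) (1 / (4 * Real.exp 6 ^ 2)))
    (sq_nonneg δ)
  refine k7.trans ?_
  rw [div_mul_eq_mul_div, one_mul, div_le_iff₀ (by positivity)]
  nlinarith

end Pool.Agent.MP_66cee2_co.H53
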