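import Pool.Agent.MP_66cee2_co.D.TArc

/-
A circle with two small balls removed contains an arc with a unit chord all of whose points
have unit neighbours on the circle outside the balls.
-/

namespace Pool.Agent.MP_66cee2_co.D

open Set Metric Module Pool.Agent.MP_66cee2_co.X
open scoped RealInnerProductSpace

namespace Circx

variable {d : ℕ}

theorem norm_two' {a b : E d} (ha : ‖a‖ = 1) (hb : ‖b‖ = 1) (hab : ⟪a, b⟫ = 0) (x y : ℝ) :
    ‖x • a + y • b‖ ^ 2 = x ^ 2 + y ^ 2 := by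
  rw [norm_add_sq_real, norm_smul, norm_smul, ha, hb, inner_smul_left, inner_smul_right, hab]
  simp

theorem exists_dir (V : Submodule ℝ (E d)) (hV : 2 ≤ finrank ℝ V) (a b : E d) :
    ∃ w ∈ V, ‖w‖ = 1 ∧ ⟪a, w⟫ ≤ 0 ∧ ⟪b, w⟫ ≤ 0 := by
  obtain ⟨w, hw, hw1, hw2⟩ := TArcx.exists_perp V hV a
  rcases le_total ⟪b, w⟫ 0 with h | h
  · exact ⟨w, hw, hw1, hw2.le, h⟩
  · refine ⟨-w, V.neg_mem hw, by rw [norm_neg, hw1], ?_, ?_⟩
    · rw [inner_neg_right, hw2, neg_zero]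
    · rw [inner_neg_right]; linarith

end Circx

open Circx in
theorem circ2 {d : ℕ} (B : Set (E d)) (o y₁ y₂ : E d) (V : Submodule ℝ (E d)) (ρ ε : ℝ)
    (hV : 2 ≤ finrank ℝ V) (hρ : 0 < ρ) (h1 : 1 / 2 < ρ ^ 2) (hε : ε * ρ ≤ ρ ^ 2 - 1 / 2)
    (hB : ∀ y ∈ Sph o V ρ, ε ≤ ‖y - y₁‖ → ε ≤ ‖y - y₂‖ → y ∈ B) :
    ∃ G : Set (E d), IsPreconnected G ∧ G ⊆ B ∧ (∃ y ∈ G, ∃ z ∈ G, ‖y - z‖ = 1) ∧
      ∀ y ∈ G, ∃ m : E d, ‖m‖ = 1 ∧ y + m ∈ B := by
  obtain ⟨w, hwV, hw, k1, k2⟩ := exists_dir V hV (y₁ - o) (y₂ - o)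
  obtain ⟨b, hbV, hb, hwb⟩ := TArcx.exists_perp V hV w
  have hρ2 : 0 < 2 * ρ ^ 2 := by positivity
  obtain ⟨c, hc⟩ : ∃ c : ℝ, c = 1 - 1 / (2 * ρ ^ 2) := ⟨_, rfl⟩
  have hc2 : c * (2 * ρ ^ 2) = 2 * ρ ^ 2 - 1 := by rw [hc]; field_simp
  have hc0 : 0 < c := by
    rw [hc, sub_pos, div_lt_one hρ2]; linarith
  have hc1 : c ≤ 1 := by
    rw [hc]; linarith [one_div_pos.2 hρ2]
  have hεc : ε ≤ ρ * c := by
    refine le_of_mul_le_mul_right ?_ hρ
    nlinarith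
  obtain ⟨α, hα⟩ : ∃ α : ℝ, α = Real.arccos c := ⟨_, rfl⟩
  have hcos : Real.cos α = c := by rw [hα]; exact Real.cos_arccos (by linarith) hc1
  have hα0 : 0 ≤ α := hα ▸ Real.arccos_nonneg c
  have hαπ : α ≤ Real.pi := hα ▸ Real.arccos_le_pi c
  let p : ℝ → E d := fun t => o + ((ρ * Real.cos t) • w + (ρ * Real.sin t) • b)
  have hp : ∀ t ∈ Icc (-α) α, p t ∈ B := by
    intro t ht
    have e1 : p t - o = (ρ * Real.cos t) • w + (ρ * Real.sin t) • b := add_sub_cancel_left _ _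
    have hct : c ≤ Real.cos t := by
      rw [← hcos, ← Real.cos_abs t]
      exact Real.cos_le_cos_of_nonneg_of_le_pi (abs_nonneg t) hαπ (abs_le.2 ht)
    have e3 : ⟪p t - o, w⟫ = ρ * Real.cos t := by
      rw [e1, inner_add_left, inner_smul_left, inner_smul_left, real_inner_self_eq_norm_sq, hw,
        real_inner_comm, hwb]
      simp
    have far : ∀ y : E d, ⟪y - o, w⟫ ≤ 0 → ε ≤ ‖p t - y‖ := by
      intro y hy
      have e4 : p t - y = (p t - o) - (y - o) := by abel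
      have e5 := real_inner_le_norm (p t - y) w
      rw [hw, mul_one] at e5
      have e6 : ⟪p t - y, w⟫ = ρ * Real.cos t - ⟪y - o, w⟫ := by
        rw [e4, inner_sub_left, e3]
      have e7 := mul_le_mul_of_nonneg_left hct hρ.le
      linarith
    refine hB _ ⟨?_, ?_⟩ (far _ k1) (far _ k2)
    · rw [e1]; exact V.add_mem (V.smul_mem _ hwV) (V.smul_mem _ hbV)
    · rw [e1]
      refine (pow_left_inj₀ (norm_nonneg _) hρ.le two_ne_zero).1 ?_
      rw [norm_two' hw hb hwb]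
      nlinarith [Real.cos_sq_add_sin_sq t]
  have hch : ∀ t : ℝ, ‖p (t + α) - p t‖ = 1 := by
    intro t
    have e : p (t + α) - p t = (ρ * (Real.cos (t + α) - Real.cos t)) • w +
        (ρ * (Real.sin (t + α) - Real.sin t)) • b := by
      simp only [p]; module
    refine (pow_left_inj₀ (norm_nonneg _) zero_le_one two_ne_zero).1 ?_
    rw [e, norm_two' hw hb hwb]
    have g1 := Real.cos_sq_add_sin_sq t
    have g2 := Real.cos_sq_add_sin_sq (t + α)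
    have g3 : Real.cos (t + α) * Real.cos t + Real.sin (t + α) * Real.sin t = c := by
      rw [← Real.cos_sub, add_sub_cancel_left, hcos]
    linear_combination ρ ^ 2 * g1 + ρ ^ 2 * g2 - 2 * ρ ^ 2 * g3 - hc2
  refine ⟨p '' Icc (-α) 0, isPreconnected_Icc.image _ (Continuous.continuousOn (by fun_prop)),
    ?_, ?_, ?_⟩
  · rintro _ ⟨t, ht, rfl⟩
    exact hp t ⟨ht.1, ht.2.trans hα0⟩
  · refine ⟨p (-α + α), ⟨_, ⟨by linarith, by linarith⟩, rfl⟩, p (-α),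
      ⟨_, ⟨le_rfl, by linarith⟩, rfl⟩, hch _⟩
  · rintro _ ⟨t, ht, rfl⟩
    refine ⟨p (t + α) - p t, hch t, ?_⟩
    rw [add_sub_cancel]
    exact hp _ ⟨by linarith [ht.1], by linarith [ht.2]⟩

end Pool.Agent.MP_66cee2_co.D
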